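import Pool.Agent.Q62.CS.Stm

set_option autoImplicit false

/-! Project CS of helper62: finite entropy, A1 to A5. -/

open Filter Topology MeasureTheory Finset Pool.Agent.Q62.CS

namespace Pool.Agent.Q104.CS

theorem t_A1 : S_A1 := by
  intro ι _ p q hp hq hq1 hs
  have hterm : ∀ i, p i - q i ≤ p i * -Real.log (q i) - Real.negMulLog (p i) := by
    intro i
    rcases eq_or_lt_of_le (hp.1 i) with h | h
    · rw [← h]
      simp [hq i]
    · have hqi : 0 < q i := lt_of_le_of_ne (hq i) (Ne.symm (hs i h.ne'))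
      have h1 := Real.log_le_sub_one_of_pos (div_pos hqi h)
      rw [Real.log_div hqi.ne' h.ne'] at h1
      have h2 : p i * (Real.log (q i) - Real.log (p i)) ≤ p i * (q i / p i - 1) :=
        mul_le_mul_of_nonneg_left h1 h.le
      have h3 : p i * (q i / p i - 1) = q i - p i := by
        field_simp
      rw [h3] at h2
      unfold Real.negMulLog
      nlinarith [h2]
  have hsum : ∑ i, (p i * -Real.log (q i) - Real.negMulLog (p i)) =
      ∑ i, p i * -Real.log (q i) - ent p := by
    rw [Finset.sum_sub_distrib]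
    rfl
  have hpq : 0 ≤ ∑ i, (p i - q i) := by
    rw [Finset.sum_sub_distrib, hp.2]
    linarith
  have hle : ∑ i, (p i - q i) ≤ ∑ i, (p i * -Real.log (q i) - Real.negMulLog (p i)) :=
    Finset.sum_le_sum fun i _ => hterm i
  refine ⟨by linarith, ?_⟩
  intro heq i
  have h0 : ∑ i, (p i * -Real.log (q i) - Real.negMulLog (p i)) = ∑ i, (p i - q i) := by
    linarith
  have h1 := (Finset.sum_eq_sum_iff_of_le (fun i _ => hterm i)).mp h0.symm i (Finset.mem_univ i)
  rcases eq_or_lt_of_le (hp.1 i) with h | h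
  · rw [← h] at h1 ⊢
    simp at h1
    exact h1.symm
  · have hqi : 0 < q i := lt_of_le_of_ne (hq i) (Ne.symm (hs i h.ne'))
    by_contra hne
    have h2 : q i / p i ≠ 1 := by
      intro h3
      rw [div_eq_one_iff_eq h.ne'] at h3
      exact hne h3.symm
    have h4 := Real.log_lt_sub_one_of_pos (div_pos hqi h) h2
    rw [Real.log_div hqi.ne' h.ne'] at h4
    have h5 : p i * (Real.log (q i) - Real.log (p i)) < p i * (q i / p i - 1) :=
      mul_lt_mul_of_pos_left h4 h
    have h3 : p i * (q i / p i - 1) = q i - p i := by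
      field_simp
    rw [h3] at h5
    unfold Real.negMulLog at h1
    nlinarith [h5]

theorem t_A2 (a1 : S_A1) : S_A2 := by
  classical
  intro ι _ p S hp hS
  have hSn : S.Nonempty := by
    by_contra h
    rw [Finset.not_nonempty_iff_eq_empty] at h
    subst h
    have : ∑ i, p i = 0 := Finset.sum_eq_zero fun i _ => hS i (Finset.notMem_empty i)
    rw [hp.2] at this
    exact one_ne_zero this
  have hc : (0 : ℝ) < S.card := by exact_mod_cast hSn.card_pos
  have h := (a1 p (fun i => if i ∈ S then (S.card : ℝ)⁻¹ else 0) hp (by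
    intro i
    split_ifs
    · positivity
    · exact le_refl _) (by
    rw [Finset.sum_ite_mem, Finset.univ_inter, Finset.sum_const, nsmul_eq_mul,
      mul_inv_cancel₀ hc.ne']) (by
    intro i hi
    have : i ∈ S := by
      by_contra h
      exact hi (hS i h)
    rw [if_pos this]
    exact inv_ne_zero hc.ne')).1
  refine h.trans (le_of_eq ?_)
  have : ∀ i, p i * -Real.log (if i ∈ S then (S.card : ℝ)⁻¹ else 0) =
      p i * Real.log S.card := by
    intro i
    by_cases hi : i ∈ S
    · rw [if_pos hi, Real.log_inv, neg_neg]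
    · rw [hS i hi, zero_mul, zero_mul]
  rw [Finset.sum_congr rfl fun i _ => this i, ← Finset.sum_mul, hp.2, one_mul]

/-- Sums against an image. -/
theorem push_sum {ι κ : Type} [Fintype ι] [Fintype κ] (f : ι → κ) (p : ι → ℝ) (g : κ → ℝ) :
    ∑ k, push f p k * g k = ∑ i, p i * g (f i) := by
  classical
  unfold push
  simp_rw [Finset.sum_mul]
  rw [Finset.sum_comm]
  apply Finset.sum_congr rfl
  intro i _
  rw [Finset.sum_eq_single (f i)]
  · rw [if_pos rfl]
  · intro k _ hk
    rw [if_neg (Ne.symm hk), zero_mul]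
  · intro h
    exact absurd (Finset.mem_univ _) h

theorem push_nonneg {ι κ : Type} [Fintype ι] (f : ι → κ) (p : ι → ℝ) (hp : ∀ i, 0 ≤ p i)
    (k : κ) : 0 ≤ push f p k := by
  classical
  unfold push
  apply Finset.sum_nonneg
  intro i _
  split_ifs
  · exact hp i
  · exact le_refl _

theorem le_push {ι κ : Type} [Fintype ι] (f : ι → κ) (p : ι → ℝ) (hp : ∀ i, 0 ≤ p i)
    (i : ι) : p i ≤ push f p (f i) := by
  classical
  unfold push
  have := Finset.single_le_sum (f := fun j => if f j = f i then p j else 0) (s := Finset.univ)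
    (fun j _ => by
      split_ifs
      · exact hp j
      · exact le_refl _) (Finset.mem_univ i)
  rw [if_pos rfl] at this
  convert this

theorem ent_push {ι κ : Type} [Fintype ι] [Fintype κ] (f : ι → κ) (p : ι → ℝ) :
    ent (push f p) = ∑ i, p i * -Real.log (push f p (f i)) := by
  rw [← push_sum f p (fun k => -Real.log (push f p k))]
  unfold ent Real.negMulLog
  apply Finset.sum_congr rfl
  intro k _
  ring

theorem pmf_push {ι κ : Type} [Fintype ι] [Fintype κ] (f : ι → κ) (p : ι → ℝ) (hp : Pmf p) :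
    Pmf (push f p) := by
  refine ⟨push_nonneg f p hp.1, ?_⟩
  have := push_sum f p (fun _ => 1)
  simp only [mul_one] at this
  rw [this, hp.2]

theorem t_A3 : S_A3 := by
  intro ι κ _ _ f p hp
  refine ⟨pmf_push f p hp, ?_⟩
  rw [ent_push]
  unfold ent Real.negMulLog
  apply Finset.sum_le_sum
  intro i _
  rcases eq_or_lt_of_le (hp.1 i) with h | h
  · rw [← h]
    simp
  · have h1 := le_push f p hp.1 i
    have h2 := Real.log_le_log h h1
    nlinarith

theorem t_A4 : S_A4 := by
  intro τ ι _ s p hs hp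
  have hc : (0 : ℝ) < s.card := by exact_mod_cast hs.card_pos
  constructor
  · refine ⟨fun i => div_nonneg (Finset.sum_nonneg fun t ht => (hp t ht).1 i) hc.le, ?_⟩
    rw [← Finset.sum_div, Finset.sum_comm, Finset.sum_congr rfl fun t ht => (hp t ht).2,
      Finset.sum_const, nsmul_eq_mul, mul_one, div_self hc.ne']
  · unfold ent
    rw [Finset.sum_comm, Finset.sum_div]
    apply Finset.sum_le_sum
    intro i _
    have h := Real.concaveOn_negMulLog.le_map_sum (t := s) (w := fun _ => (s.card : ℝ)⁻¹)
      (p := fun t => p t i) (fun _ _ => (inv_pos.mpr hc).le) (by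
        rw [Finset.sum_const, nsmul_eq_mul, mul_inv_cancel₀ hc.ne'])
      (fun t ht => (hp t ht).1 i)
    simp only [smul_eq_mul] at h
    rw [← Finset.mul_sum, ← Finset.mul_sum] at h
    beta_reduce
    rw [div_eq_inv_mul, div_eq_inv_mul]
    exact h

theorem t_A5 (a1 : S_A1) : S_A5 := by
  classical
  intro ι 𝒜 A B _ _ _ _ m p a F g hp hinj
  set P := push a p with hP
  set R : Fin m → A × B → ℝ := fun j => push (fun i => (F j (a i), g j i)) p with hR
  set r : Fin m → A → ℝ := fun j => push (fun i => F j (a i)) p with hr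
  have hP0 : ∀ x, 0 ≤ P x := push_nonneg a p hp.1
  have hR0 : ∀ j x, 0 ≤ R j x := fun j => push_nonneg _ p hp.1
  have hr0 : ∀ j x, 0 ≤ r j x := fun j => push_nonneg _ p hp.1
  let G : 𝒜 × (Fin m → B) → ℝ := fun z =>
    P z.1 * ∏ j, (R j (F j z.1, z.2 j) / r j (F j z.1))
  have hG0 : ∀ z, 0 ≤ G z := fun z => mul_nonneg (hP0 _)
    (Finset.prod_nonneg fun j _ => div_nonneg (hR0 _ _) (hr0 _ _))
  have hRr : ∀ j y, ∑ b, R j (y, b) = r j y := by
    intro j y
    simp only [hR, hr, push]
    rw [Finset.sum_comm]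
    apply Finset.sum_congr rfl
    intro i _
    by_cases h : F j (a i) = y
    · rw [if_pos h, Finset.sum_eq_single (g j i)]
      · rw [if_pos (by rw [h])]
      · intro b _ hb
        rw [if_neg (fun h' => hb (Prod.ext_iff.mp h').2.symm)]
      · intro h'
        exact absurd (Finset.mem_univ _) h'
    · rw [if_neg h]
      apply Finset.sum_eq_zero
      intro b _
      rw [if_neg (fun h' => h (Prod.ext_iff.mp h').1)]
  have hGsum : ∑ z, G z ≤ 1 := by
    rw [Fintype.sum_prod_type]
    have h1 : ∀ x, ∑ b : Fin m → B, G (x, b) ≤ P x := by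
      intro x
      simp only [G]
      rw [← Finset.mul_sum]
      have h2 : ∑ b : Fin m → B, ∏ j, (R j (F j x, b j) / r j (F j x)) =
          ∏ j, ∑ b : B, R j (F j x, b) / r j (F j x) := by
        rw [Finset.prod_univ_sum, Fintype.piFinset_univ]
      rw [h2]
      have h3 : ∏ j, ∑ b : B, R j (F j x, b) / r j (F j x) ≤ 1 := by
        apply Finset.prod_le_one
        · intro j _
          exact Finset.sum_nonneg fun b _ => div_nonneg (hR0 _ _) (hr0 _ _)
        · intro j _
          rw [← Finset.sum_div, hRr]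
          exact div_self_le_one _
      calc P x * _ ≤ P x * 1 := mul_le_mul_of_nonneg_left h3 (hP0 x)
        _ = P x := mul_one _
    calc ∑ x, ∑ b : Fin m → B, G (x, b) ≤ ∑ x, P x := Finset.sum_le_sum fun x _ => h1 x
      _ = 1 := (pmf_push a p hp).2
  let q : ι → ℝ := fun i => G (a i, fun j => g j i)
  have hq1 : ∑ i, q i ≤ 1 := by
    have h1 : ∑ i, q i = ∑ z ∈ Finset.univ.image (fun i => (a i, fun j => g j i)), G z := by
      rw [Finset.sum_image (fun x _ y _ h => hinj h)]
    rw [h1]
    exact (Finset.sum_le_sum_of_subset_of_nonneg (Finset.subset_univ _)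
      (fun z _ _ => hG0 z)).trans hGsum
  have hPpos : ∀ i, p i ≠ 0 → 0 < P (a i) := fun i hi =>
    lt_of_lt_of_le (lt_of_le_of_ne (hp.1 i) (Ne.symm hi)) (le_push a p hp.1 i)
  have hRpos : ∀ i j, p i ≠ 0 → 0 < R j (F j (a i), g j i) := fun i j hi =>
    lt_of_lt_of_le (lt_of_le_of_ne (hp.1 i) (Ne.symm hi))
      (le_push (fun i => (F j (a i), g j i)) p hp.1 i)
  have hrpos : ∀ i j, p i ≠ 0 → 0 < r j (F j (a i)) := fun i j hi =>
    lt_of_lt_of_le (lt_of_le_of_ne (hp.1 i) (Ne.symm hi))
      (le_push (fun i => F j (a i)) p hp.1 i)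
  have h := (a1 p q hp (fun i => hG0 _) hq1 (by
    intro i hi
    exact (mul_pos (hPpos i hi) (Finset.prod_pos fun j _ =>
      div_pos (hRpos i j hi) (hrpos i j hi))).ne')).1
  refine h.trans (le_of_eq ?_)
  have e1 : ent P = ∑ i, p i * -Real.log (P (a i)) := ent_push a p
  have e2 : ∀ j, ent (R j) = ∑ i, p i * -Real.log (R j (F j (a i), g j i)) := fun j =>
    ent_push (fun i => (F j (a i), g j i)) p
  have e3 : ∀ j, ent (r j) = ∑ i, p i * -Real.log (r j (F j (a i))) := fun j =>
    ent_push (fun i => F j (a i)) p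
  have e4 : ∀ j, ent (R j) - ent (r j) = ∑ i, p i *
      (-Real.log (R j (F j (a i), g j i)) + Real.log (r j (F j (a i)))) := by
    intro j
    rw [e2, e3, ← Finset.sum_sub_distrib]
    apply Finset.sum_congr rfl
    intro i _
    ring
  change ∑ i, p i * -Real.log (q i) = ent P + ∑ j, (ent (R j) - ent (r j))
  rw [e1, Finset.sum_congr rfl fun j _ => e4 j, Finset.sum_comm, ← Finset.sum_add_distrib]
  apply Finset.sum_congr rfl
  intro i _
  by_cases hi : p i = 0
  · rw [hi]
    simp
  · have hlog : Real.log (q i) = Real.log (P (a i)) +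
        ∑ j, (Real.log (R j (F j (a i), g j i)) - Real.log (r j (F j (a i)))) := by
      have h5 : ∀ j, R j (F j (a i), g j i) / r j (F j (a i)) ≠ 0 := fun j =>
        (div_pos (hRpos i j hi) (hrpos i j hi)).ne'
      change Real.log (P (a i) * ∏ j, (R j (F j (a i), g j i) / r j (F j (a i)))) = _
      rw [Real.log_mul (hPpos i hi).ne' (Finset.prod_ne_zero_iff.mpr fun j _ => h5 j),
        Real.log_prod (fun j _ => h5 j)]
      congr 1
      apply Finset.sum_congr rfl
      intro j _
      rw [Real.log_div (hRpos i j hi).ne' (hrpos i j hi).ne']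
    rw [hlog, ← Finset.mul_sum, ← mul_add, neg_add, ← Finset.sum_neg_distrib]
    congr 2
    apply Finset.sum_congr rfl
    intro j _
    ring

end Pool.Agent.Q104.CS
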