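import Pool.Agent.Q104.CS.A

set_option autoImplicit false

/-! Project CS of helper62: uniqueness of the joining, B1. -/

open Filter Topology MeasureTheory Finset Pool.Agent.Q62.CS

namespace Pool.Agent.Q104.CS

theorem push_push {ι κ τ : Type} [Fintype ι] [Fintype κ] (f : ι → κ) (g : κ → τ) (p : ι → ℝ)
    (t : τ) : push g (push f p) t = push (fun i => g (f i)) p t := by
  classical
  have h := push_sum f p (fun k => if g k = t then 1 else 0)
  simp only [mul_ite, mul_one, mul_zero] at h
  have h1 : push g (push f p) t = ∑ k, if g k = t then push f p k else 0 := by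
    unfold push
    apply Finset.sum_congr rfl
    intro k _
    split_ifs <;> rfl
  have h2 : push (fun i => g (f i)) p t = ∑ i, if g (f i) = t then p i else 0 := by
    unfold push
    apply Finset.sum_congr rfl
    intro k _
    split_ifs <;> rfl
  rw [h1, h2, h]

theorem uu_prod {α : Type} (val : α → ℕ) {B n : ℕ} (V : Fin n → α) (D : Fin n → Fin B) :
    uu val V D = ∏ i, (if (D i : ℕ) < val (V i) then ((val (V i) : ℝ))⁻¹ else 0) := by
  classical
  unfold uu
  split_ifs with h
  · rw [← Finset.prod_inv_distrib]
    apply Finset.prod_congr rfl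
    intro i _
    rw [if_pos (h i)]
  · rw [not_forall] at h
    obtain ⟨i, hi⟩ := h
    symm
    apply Finset.prod_eq_zero (Finset.mem_univ i)
    rw [if_neg hi]

theorem sum_lt (B k : ℕ) (h1 : 1 ≤ k) (hk : k ≤ B) :
    ∑ b : Fin B, (if (b : ℕ) < k then ((k : ℝ))⁻¹ else 0) = 1 := by
  rw [Fin.sum_univ_eq_sum_range (fun b => if b < k then ((k : ℝ))⁻¹ else 0) B, ← Finset.sum_filter]
  have : (range B).filter (fun b => b < k) = range k := by
    ext b
    simp only [Finset.mem_filter, Finset.mem_range]
    omega
  rw [this, Finset.sum_const, Finset.card_range, nsmul_eq_mul]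
  have : (k : ℝ) ≠ 0 := by positivity
  field_simp

theorem uu_sum {α : Type} (val : α → ℕ) {B n : ℕ} (hval : ∀ a, 1 ≤ val a ∧ val a ≤ B)
    (V : Fin n → α) : ∑ D : Fin n → Fin B, uu val V D = 1 := by
  classical
  simp only [uu_prod]
  have := Finset.prod_univ_sum (fun _ : Fin n => (Finset.univ : Finset (Fin B)))
    (fun i b => if (b : ℕ) < val (V i) then ((val (V i) : ℝ))⁻¹ else 0)
  rw [Fintype.piFinset_univ] at this
  rw [← this]
  apply Finset.prod_eq_one
  intro i _
  exact sum_lt B (val (V i)) (hval _).1 (hval _).2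

theorem uu_nonneg {α : Type} (val : α → ℕ) {B n : ℕ} (V : Fin n → α) (D : Fin n → Fin B) :
    0 ≤ uu val V D := by
  classical
  unfold uu
  split_ifs
  · exact inv_nonneg.mpr (Finset.prod_nonneg fun i _ => Nat.cast_nonneg _)
  · exact le_refl _

theorem t_B1 (a1 : S_A1) (a3 : S_A3) (a5 : S_A5) : S_B1 := by
  classical
  intro α _ B val hval mu lam hlam hcons hfst hsnd hsupp hent n W
  have hmu : ∀ n, mu n = push Prod.fst (lam n) := fun n => funext fun V => (hfst n V).symm
  have hmuP : ∀ n, Pmf (mu n) := by
    intro n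
    rw [hmu]
    exact pmf_push _ _ (hlam n)
  set c : ℝ := ∑ a, mu 1 (fun _ => a) * Real.log (val a) with hc
  let q : ∀ n, (Fin n → α) × (Fin n → Fin B) → ℝ := fun n W => mu n W.1 * uu val W.1 W.2
  have hq0 : ∀ n W, 0 ≤ q n W := fun n W => mul_nonneg ((hmuP n).1 _) (uu_nonneg _ _ _)
  have hq1 : ∀ n, ∑ W, q n W = 1 := by
    intro n
    rw [Fintype.sum_prod_type]
    have : ∀ V, ∑ D : Fin n → Fin B, q n (V, D) = mu n V := by
      intro V
      simp only [q]
      rw [← Finset.mul_sum, uu_sum val hval, mul_one]
    rw [Finset.sum_congr rfl fun V _ => this V]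
    exact (hmuP n).2
  have hmupos : ∀ n W, lam n W ≠ 0 → 0 < mu n W.1 := by
    intro n W hW
    have h1 : lam n W ≤ mu n W.1 := by
      rw [hmu]
      exact le_push Prod.fst (lam n) (hlam n).1 W
    exact lt_of_lt_of_le (lt_of_le_of_ne ((hlam n).1 W) (Ne.symm hW)) h1
  have huu : ∀ n W, lam n W ≠ 0 → uu val W.1 W.2 = (∏ i, (val (W.1 i) : ℝ))⁻¹ := by
    intro n W hW
    unfold uu
    rw [if_pos (hsupp n W hW)]
  have hvpos : ∀ a, (0 : ℝ) < val a := fun a => by exact_mod_cast (hval a).1
  have hqne : ∀ n W, lam n W ≠ 0 → q n W ≠ 0 := by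
    intro n W hW
    refine mul_ne_zero (hmupos n W hW).ne' ?_
    rw [huu n W hW]
    exact inv_ne_zero (Finset.prod_ne_zero_iff.mpr fun i _ => (hvpos _).ne')
  -- windows of length one
  have hone : ∀ (n : ℕ) (i : Fin n) (g : α → ℝ), ∑ W, lam n W * g (W.1 i) =
      ∑ a, mu 1 (fun _ => a) * g a := by
    intro n i g
    have h1 := hcons 1 n i (by omega)
    have h2 := push_sum (fun W' : (Fin n → α) × (Fin n → Fin B) =>
      ((fun t : Fin 1 => W'.1 ⟨i + t, by omega⟩), (fun t : Fin 1 => W'.2 ⟨i + t, by omega⟩)))
      (lam n) (fun W => g (W.1 0))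
    have h3 : ∀ W : (Fin n → α) × (Fin n → Fin B), W.1 ⟨(i : ℕ) + ((0 : Fin 1) : ℕ), by
        have := i.2
        simp⟩ = W.1 i := by
      intro W
      congr 1
    rw [Finset.sum_congr rfl fun W _ => by rw [h1 W]] at h2
    have h4 := push_sum (Prod.fst : (Fin 1 → α) × (Fin 1 → Fin B) → (Fin 1 → α)) (lam 1)
      (fun V => g (V 0))
    rw [← hmu 1] at h4
    have h5 : ∑ V : Fin 1 → α, mu 1 V * g (V 0) = ∑ a, mu 1 (fun _ => a) * g a := by
      apply Fintype.sum_equiv (Equiv.funUnique (Fin 1) α)
      intro V
      have : (fun _ : Fin 1 => (Equiv.funUnique (Fin 1) α) V) = V := by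
        funext j
        rw [Subsingleton.elim j default]
        rfl
      rw [this]
      rfl
    rw [← h5, h4, h2]
    rfl
  have hcross : ∀ n, ∑ W, lam n W * -Real.log (q n W) = ent (mu n) + n * c := by
    intro n
    have h1 : ∀ W, lam n W * -Real.log (q n W) = lam n W * -Real.log (mu n W.1) +
        ∑ i : Fin n, lam n W * Real.log (val (W.1 i)) := by
      intro W
      by_cases hW : lam n W = 0
      · rw [hW]
        simp
      · have h2 : Real.log (q n W) = Real.log (mu n W.1) - ∑ i : Fin n, Real.log (val (W.1 i)) := by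
          change Real.log (mu n W.1 * uu val W.1 W.2) = _
          rw [huu n W hW, Real.log_mul (hmupos n W hW).ne' (inv_ne_zero
            (Finset.prod_ne_zero_iff.mpr fun i _ => (hvpos _).ne')), Real.log_inv,
            Real.log_prod (fun i _ => (hvpos _).ne')]
          ring
        rw [h2, ← Finset.mul_sum]
        ring
    rw [Finset.sum_congr rfl fun W _ => h1 W, Finset.sum_add_distrib, Finset.sum_comm]
    congr 1
    · have h3 := ent_push (Prod.fst : (Fin n → α) × (Fin n → Fin B) → (Fin n → α)) (lam n)
      rw [← hmu n] at h3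
      rw [h3]
    · rw [Finset.sum_congr rfl fun i _ => hone n i (fun a => Real.log (val a)),
        Finset.sum_const, Finset.card_univ, Fintype.card_fin, nsmul_eq_mul]
  have hgibbs := fun n => a1 (lam n) (q n) (hlam n) (hq0 n) (hq1 n).le (hqne n)
  rcases Nat.eq_zero_or_pos n with rfl | hn
  · -- the trivial window
    have h1 : lam 0 W = 1 := by
      have := (hlam 0).2
      rw [Fintype.sum_eq_single W (fun W' h => absurd (Prod.ext (Subsingleton.elim _ _)
        (Subsingleton.elim _ _)) h)] at this
      exact this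
    have h2 : mu 0 W.1 = 1 := by
      have := (hmuP 0).2
      rw [Fintype.sum_eq_single W.1 (fun W' h => absurd (Subsingleton.elim _ _) h)] at this
      exact this
    rw [h1, h2, uu_prod]
    simp
  · have hkl : ent (lam n) = ∑ W, lam n W * -Real.log (q n W) := by
      apply le_antisymm (hgibbs n).1
      rw [hcross n]
      by_contra hcon
      rw [not_le] at hcon
      obtain ⟨δ, hδ0, hδ⟩ : ∃ δ : ℝ, 0 < δ ∧ δ < ent (mu n) + n * c - ent (lam n) := by
        refine ⟨(ent (mu n) + n * c - ent (lam n)) / 2, by linarith, by linarith⟩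
      obtain ⟨m, hm, hmm⟩ := hent n δ hn hδ0
      have hm0 : (0 : ℝ) < m := by exact_mod_cast hm
      have hjl : ∀ j : Fin m, (j : ℕ) * n + n ≤ m * n := by
        intro j
        have := Nat.mul_le_mul_right n (Nat.succ_le_of_lt j.2)
        rw [Nat.succ_mul] at this
        exact this
      have hidx : ∀ (j : Fin m) (t : Fin n), (j : ℕ) * n + t < m * n := by
        intro j t
        have := hjl j
        omega
      have h5 := a5 m (lam (m * n)) (Prod.fst : (Fin (m * n) → α) × (Fin (m * n) → Fin B) → _)
        (fun (j : Fin m) (V : Fin (m * n) → α) => (fun t : Fin n => V ⟨(j : ℕ) * n + t, hidx j t⟩))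
        (fun (j : Fin m) (W : (Fin (m * n) → α) × (Fin (m * n) → Fin B)) =>
          (fun t : Fin n => W.2 ⟨(j : ℕ) * n + t, hidx j t⟩)) (hlam _) (by
          intro W W' h
          have ha := congrArg Prod.fst h
          have hb := congrArg Prod.snd h
          refine Prod.ext ha ?_
          funext i
          have hdiv : (i : ℕ) / n < m := (Nat.div_lt_iff_lt_mul hn).mpr i.2
          have hmod : (i : ℕ) % n < n := Nat.mod_lt _ hn
          have hx := congrFun (congrFun hb ⟨(i : ℕ) / n, hdiv⟩) ⟨(i : ℕ) % n, hmod⟩
          have hi : (⟨((i : ℕ) / n) * n + (i : ℕ) % n, by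
              rw [mul_comm, Nat.div_add_mod]
              exact i.2⟩ : Fin (m * n)) = i := by
            ext
            simp only
            rw [mul_comm, Nat.div_add_mod]
          simp only at hx
          rw [hi] at hx
          exact hx)
      have e1 : push (Prod.fst : (Fin (m * n) → α) × (Fin (m * n) → Fin B) → _) (lam (m * n))
          = mu (m * n) := (hmu _).symm
      have e2 : ∀ j : Fin m, push (fun W : (Fin (m * n) → α) × (Fin (m * n) → Fin B) =>
          ((fun t : Fin n => W.1 ⟨(j : ℕ) * n + t, hidx j t⟩),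
            (fun t : Fin n => W.2 ⟨(j : ℕ) * n + t, hidx j t⟩))) (lam (m * n)) = lam n := by
        intro j
        funext W
        exact hcons n (m * n) ((j : ℕ) * n) (hjl j) W
      have e3 : ∀ j : Fin m, push (fun W : (Fin (m * n) → α) × (Fin (m * n) → Fin B) =>
          (fun t : Fin n => W.1 ⟨(j : ℕ) * n + t, hidx j t⟩)) (lam (m * n)) = mu n := by
        intro j
        rw [hmu n, ← e2 j]
        funext V
        rw [push_push]
      have h6 : ent (lam (m * n)) ≤ ent (mu (m * n)) + ∑ _j : Fin m, (ent (lam n) - ent (mu n)) := by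
        refine h5.trans (le_of_eq ?_)
        rw [e1]
        congr 1
        apply Finset.sum_congr rfl
        intro j _
        rw [e2 j, e3 j]
      rw [Finset.sum_const, Finset.card_univ, Fintype.card_fin, nsmul_eq_mul] at h6
      have h7 := (a3 (Prod.snd : (Fin (m * n) → α) × (Fin (m * n) → Fin B) → _) (lam (m * n))
        (hlam _)).2
      have h8 : push (Prod.snd : (Fin (m * n) → α) × (Fin (m * n) → Fin B) → _) (lam (m * n))
          = fun D => ∑ V, mu (m * n) V * uu val V D := funext fun D => hsnd _ D
      rw [h8] at h7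
      have h9 : m * (ent (mu n) + n * c - ent (lam n)) ≤ δ * m := by
        have : (m : ℝ) * (ent (mu n) + n * c - ent (lam n)) =
            m * n * c - m * (ent (lam n) - ent (mu n)) := by ring
        linarith
      nlinarith [h9, hδ, hm0]
    exact (hgibbs n).2 hkl W

/-- The window of length `n` at `j`. -/
def win {α : Type} {B : ℕ} (z : ℕ → α) (x : ℕ → Fin B) (n j : ℕ) :
    (Fin n → α) × (Fin n → Fin B) := (fun i => z (j + i), fun i => x (j + i))

open scoped Classical in
/-- The frequency of a property. -/
noncomputable def fq (P : ℕ → Prop) (T : ℕ) : ℝ :=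
  (((Finset.range T).filter (fun j => P j)).card : ℝ) / T

theorem frq_pair {α : Type} {B : ℕ} (z : ℕ → α) (x : ℕ → Fin B) {n : ℕ} (V : Fin n → α)
    (D : Fin n → Fin B) (T : ℕ) :
    frq (fun j => (z j, x j)) (fun i => (V i, D i)) T = fq (fun j => win z x n j = (V, D)) T := by
  unfold frq fq win
  congr 2
  congr 1
  ext j
  simp only [Finset.mem_filter, Prod.mk.injEq, funext_iff, forall_and]

theorem frq_one {α : Type} (z : ℕ → α) {n : ℕ} (V : Fin n → α) (T : ℕ) :
    frq z V T = fq (fun j => (fun i : Fin n => z (j + i)) = V) T := by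
  unfold frq fq
  congr 2
  congr 1
  ext j
  simp only [Finset.mem_filter, funext_iff]

theorem fq_mem (P : ℕ → Prop) (T : ℕ) : fq P T ∈ Set.Icc (0 : ℝ) 1 := by
  classical
  unfold fq
  constructor
  · positivity
  · apply div_le_one_of_le₀
    · exact_mod_cast (Finset.card_filter_le _ _).trans (by simp)
    · positivity

theorem fq_push {β κ : Type} [Fintype β] (w : ℕ → β) (φ : β → κ) (k : κ) (T : ℕ) :
    push φ (fun W => fq (fun j => w j = W) T) k = fq (fun j => φ (w j) = k) T := by
  classical
  unfold push fq
  have h : ∑ W : β, (if φ W = k then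
      (((Finset.range T).filter (fun j => w j = W)).card : ℝ) / T else 0) =
      (∑ W : β, (if φ W = k then
      (((Finset.range T).filter (fun j => w j = W)).card : ℝ) else 0)) / T := by
    rw [Finset.sum_div]
    apply Finset.sum_congr rfl
    intro W _
    split_ifs
    · rfl
    · simp
  have h2 : ∑ W : β, (if φ W = k then
      (((Finset.range T).filter (fun j => w j = W)).card : ℝ) else 0) =
      (((Finset.range T).filter (fun j => φ (w j) = k)).card : ℝ) := by
    rw [← Finset.sum_filter]
    have h3 : (Finset.range T).filter (fun j => φ (w j) = k) =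
        (Finset.univ.filter (fun W => φ W = k)).biUnion
          (fun W => (Finset.range T).filter (fun j => w j = W)) := by
      ext j
      simp only [Finset.mem_filter, Finset.mem_biUnion, Finset.mem_univ, true_and]
      constructor
      · rintro ⟨h1, h2⟩
        exact ⟨w j, h2, h1, rfl⟩
      · rintro ⟨W, h1, h2, rfl⟩
        exact ⟨h2, h1⟩
    rw [h3, Finset.card_biUnion]
    · push_cast
      rfl
    · intro W _ W' _ hne
      rw [Function.onFun, Finset.disjoint_left]
      intro j hj hj'
      rw [Finset.mem_filter] at hj hj'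
      exact hne (hj.2.symm.trans hj'.2)
  rw [← h2, ← h]

theorem fq_shift (P : ℕ → Prop) (i : ℕ) :
    Tendsto (fun T => fq (fun j => P (j + i)) T - fq P T) atTop (𝓝 0) := by
  classical
  have h1 : ∀ T : ℕ, |fq (fun j => P (j + i)) T - fq P T| ≤ (i : ℝ) / T := by
    intro T
    unfold fq
    rw [← sub_div, abs_div, Nat.abs_cast]
    apply div_le_div_of_nonneg_right _ (Nat.cast_nonneg T)
    have e1 : ((Finset.range T).filter (fun j => P (j + i))).card =
        Nat.count (fun j => P (i + j)) T := by
      rw [Nat.count_eq_card_filter_range]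
      congr 1
      apply Finset.filter_congr
      intro j _
      rw [add_comm]
    have e2 : ((Finset.range T).filter (fun j => P j)).card = Nat.count P T := by
      rw [Nat.count_eq_card_filter_range]
    rw [e1, e2]
    have h3 := Nat.count_add P i T
    have h4 := Nat.count_add P T i
    rw [add_comm T i] at h4
    have h5 := Nat.count_le P (n := i)
    have h6 := Nat.count_le (fun k => P (T + k)) (n := i)
    rw [abs_le]
    have h7 : Nat.count P i + Nat.count (fun k => P (i + k)) T =
        Nat.count P T + Nat.count (fun k => P (T + k)) i := by omega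
    have h8 : (Nat.count P i : ℝ) + Nat.count (fun k => P (i + k)) T =
        Nat.count P T + Nat.count (fun k => P (T + k)) i := by exact_mod_cast h7
    have h9 : (Nat.count P i : ℝ) ≤ i := by exact_mod_cast h5
    have h10 : (Nat.count (fun k => P (T + k)) i : ℝ) ≤ i := by exact_mod_cast h6
    have h11 : (0 : ℝ) ≤ Nat.count P i := Nat.cast_nonneg _
    have h12 : (0 : ℝ) ≤ Nat.count (fun k => P (T + k)) i := Nat.cast_nonneg _
    constructor <;> linarith
  rw [tendsto_zero_iff_abs_tendsto_zero]
  exact squeeze_zero (fun T => abs_nonneg _) h1 (tendsto_const_div_atTop_nhds_zero_nat (i : ℝ))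

theorem t_B2 (b1 : S_B1) : S_B2 := by
  classical
  intro α _ B val hval z x mu hz hx hd hent n V D
  rw [tendsto_iff_ultrafilter]
  intro 𝒰 h𝒰
  have hex : ∀ (n : ℕ) (W : (Fin n → α) × (Fin n → Fin B)), ∃ c : ℝ,
      Tendsto (fq (fun j => win z x n j = W)) 𝒰 (𝓝 c) := by
    intro n W
    obtain ⟨c, _, hc⟩ := (isCompact_Icc (a := (0 : ℝ)) (b := 1)).ultrafilter_le_nhds
      (𝒰.map (fq (fun j => win z x n j = W))) (by
        rw [Ultrafilter.coe_map, le_principal_iff, Filter.mem_map]
        exact Filter.univ_mem' (fun T => fq_mem _ T))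
    exact ⟨c, hc⟩
  choose lam hlam using hex
  have hpush : ∀ (n : ℕ) {κ : Type} (φ : (Fin n → α) × (Fin n → Fin B) → κ) (k : κ),
      Tendsto (fq (fun j => φ (win z x n j) = k)) 𝒰 (𝓝 (push φ (lam n) k)) := by
    intro n κ φ k
    have h1 : Tendsto (fun T => push φ (fun W => fq (fun j => win z x n j = W) T) k) 𝒰
        (𝓝 (push φ (lam n) k)) := by
      unfold push
      apply tendsto_finsetSum
      intro W _
      split_ifs
      · exact hlam n W
      · exact tendsto_const_nhds
    refine h1.congr ?_
    intro T
    exact fq_push (win z x n) φ k T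
  have hsum : ∀ n, ∑ W, lam n W = 1 := by
    intro n
    have h1 := hpush n (fun _ => ()) ()
    have h2 : push (fun _ => ()) (lam n) () = ∑ W, lam n W := by
      unfold push
      simp
    rw [h2] at h1
    have h3 : Tendsto (fq (fun j => (fun _ : (Fin n → α) × (Fin n → Fin B) => ())
        (win z x n j) = ())) atTop (𝓝 1) := by
      apply tendsto_const_nhds.congr'
      filter_upwards [eventually_ge_atTop 1] with T hT
      unfold fq
      have hT0 : (T : ℝ) ≠ 0 := by positivity
      simp [hT0]
    exact tendsto_nhds_unique h1 (h3.mono_left h𝒰)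
  have key := b1 B val hval mu lam (fun n => ⟨fun W => ge_of_tendsto' (hlam n W)
      (fun T => (fq_mem _ T).1), hsum n⟩) ?_ ?_ ?_ ?_ hent n (V, D)
  · have h1 := hlam n (V, D)
    rw [key] at h1
    refine h1.congr ?_
    intro T
    exact (frq_pair z x V D T).symm
  · intro l n i h W
    have h1 := hpush n (fun W' : (Fin n → α) × (Fin n → Fin B) =>
      ((fun t : Fin l => W'.1 ⟨i + t, by omega⟩), (fun t : Fin l => W'.2 ⟨i + t, by omega⟩))) W
    have h2 := (fq_shift (fun j => win z x l j = W) i).mono_left h𝒰
    have h3 := (h2.add (hlam l W))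
    rw [zero_add] at h3
    refine tendsto_nhds_unique h1 (h3.congr ?_)
    intro T
    rw [sub_add_cancel]
    congr 1
    funext j
    congr 1
    unfold win
    refine Prod.ext ?_ ?_
    · funext t
      change z (j + i + t) = z (j + (i + t))
      rw [add_assoc]
    · funext t
      change x (j + i + t) = x (j + (i + t))
      rw [add_assoc]
  · intro n V
    refine tendsto_nhds_unique (hpush n Prod.fst V) (((hz n V).mono_left h𝒰).congr ?_)
    intro T
    rw [frq_one]
    rfl
  · intro n D
    refine tendsto_nhds_unique (hpush n Prod.snd D) (((hd n D).mono_left h𝒰).congr ?_)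
    intro T
    rw [frq_one]
    rfl
  · intro n W hW
    obtain ⟨j, hj⟩ : ∃ j, win z x n j = W := by
      by_contra h
      rw [not_exists] at h
      apply hW
      have h1 : fq (fun j => win z x n j = W) = fun _ => 0 := by
        funext T
        unfold fq
        have h2 : (Finset.range T).filter (fun j => win z x n j = W) = ∅ :=
          Finset.filter_false_of_mem (fun j _ => h j)
        simp only [h2]
        simp
      have h2 := hlam n W
      rw [h1] at h2
      exact tendsto_nhds_unique h2 tendsto_const_nhds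
    rw [← hj]
    intro i
    exact hx (j + i)

end Pool.Agent.Q104.CS
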